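import Pool.Agent.H36.Cyc2

open Pool.Agent.H38.NP Pool.Agent.H36.Cyc

theorem Pool.Agent.Results.MP_68674a_lc.Cycles.result (L : ℕ) :
    (L ≤ 2 → InPOn (Valid L) CS) ∧ (3 ≤ L → NPHardOn (Valid L) CS) :=
  ⟨fun h => (easy h).1, fun h => (hardCS h).npHardOn⟩
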